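import Pool.Agent.K1H79.TW.Stm

/-! # Project TW (MP_695920_nt): the norm on the class groups -/

set_option autoImplicit false

open NumberField IsDedekindDomain
open scoped nonZeroDivisors Classical
open Pool.Agent.K1H79.TW

namespace Pool.Agent.K1H1.TW

section

variable (E K : Type) [Field E] [NumberField E] [Field K] [NumberField K] [Algebra E K]

theorem relNorm_mem (I : (Ideal (𝓞 K))⁰) :
    Ideal.relNorm (𝓞 E) (I : Ideal (𝓞 K)) ∈ (Ideal (𝓞 E))⁰ := by
  rw [mem_nonZeroDivisors_iff_ne_zero]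
  intro h
  exact (mem_nonZeroDivisors_iff_ne_zero.mp I.2) (Ideal.relNorm_eq_bot_iff.mp h)

/-- the class of the norm of an ideal -/
noncomputable def F : (Ideal (𝓞 K))⁰ →* ClassGroup (𝓞 E) where
  toFun I := ClassGroup.mk0 ⟨Ideal.relNorm (𝓞 E) (I : Ideal (𝓞 K)), relNorm_mem E K I⟩
  map_one' := by
    rw [← map_one (ClassGroup.mk0 (R := 𝓞 E))]
    congr 1
    apply Subtype.ext
    simp
  map_mul' I J := by
    rw [← map_mul]
    congr 1
    apply Subtype.ext
    simp

theorem F_eq {I J : (Ideal (𝓞 K))⁰} (h : ClassGroup.mk0 I = ClassGroup.mk0 J) :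
    F E K I = F E K J := by
  obtain ⟨x, y, hx, hy, hxy⟩ := ClassGroup.mk0_eq_mk0_iff.mp h
  refine ClassGroup.mk0_eq_mk0_iff.mpr ⟨Algebra.intNorm (𝓞 E) (𝓞 K) x,
    Algebra.intNorm (𝓞 E) (𝓞 K) y, ?_, ?_, ?_⟩
  · exact fun h0 => hx (Algebra.intNorm_eq_zero.mp h0)
  · exact fun h0 => hy (Algebra.intNorm_eq_zero.mp h0)
  · have := congrArg (Ideal.relNorm (𝓞 E)) hxy
    rw [map_mul, map_mul, Ideal.relNorm_singleton, Ideal.relNorm_singleton] at this
    exact this

end

/-- L: existence of the norm -/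
theorem t_NM : S_NM := by
  intro E K _ _ _ _ _
  have hs : Function.Surjective (ClassGroup.mk0 (R := 𝓞 K)) := ClassGroup.mk0_surjective
  refine ⟨{ toFun := fun c => F E K (Function.surjInv hs c)
            map_one' := ?_
            map_mul' := ?_ }, ?_⟩
  · rw [← map_one (F E K)]
    apply F_eq
    rw [Function.surjInv_eq hs, map_one]
  · intro a b
    rw [← map_mul (F E K)]
    apply F_eq
    rw [Function.surjInv_eq hs, map_mul, Function.surjInv_eq hs, Function.surjInv_eq hs]
  · intro I J hJ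
    show F E K (Function.surjInv hs (ClassGroup.mk0 I)) = ClassGroup.mk0 J
    rw [F_eq E K (Function.surjInv_eq hs (ClassGroup.mk0 I))]
    show ClassGroup.mk0 _ = ClassGroup.mk0 J
    congr 1
    exact Subtype.ext hJ.symm

end Pool.Agent.K1H1.TW
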