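import Pool.Agent.K1H79.TW.Stm

/-! # Project TW (MP_695920_nt): assembly of the transfer principle -/

set_option autoImplicit false

open NumberField IsDedekindDomain
open scoped nonZeroDivisors Classical
open Pool.Agent.K1H79.TW

namespace Pool.Agent.K1H1.TW

/-- elements killed by `3` under a homomorphism -/
theorem card_three {A B : Type*} [CommGroup A] [CommGroup B] [Finite A] [Finite B] (f : A →* B) :
    Nat.card {a : A // a ^ 3 = 1} ≤ Nat.card f.ker * Nat.card {b : B // b ^ 3 = 1} := by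
  rw [← Nat.card_prod]
  -- a section on the image
  have hs : ∀ b : {b : B // b ^ 3 = 1}, ∃ a : {a : A // a ^ 3 = 1},
      (∃ a' : {a : A // a ^ 3 = 1}, f a'.1 = b.1) → f a.1 = b.1 := by
    intro b
    by_cases h : ∃ a' : {a : A // a ^ 3 = 1}, f a'.1 = b.1
    · obtain ⟨a', ha'⟩ := h
      exact ⟨a', fun _ => ha'⟩
    · exact ⟨⟨1, one_pow 3⟩, fun h' => absurd h' h⟩
  choose s hs using hs
  let g : {a : A // a ^ 3 = 1} → {b : B // b ^ 3 = 1} := fun a =>
    ⟨f a.1, by rw [← map_pow, a.2, map_one]⟩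
  have hg : ∀ a, f (s (g a)).1 = f a.1 := fun a => hs (g a) ⟨a, rfl⟩
  let φ : {a : A // a ^ 3 = 1} → f.ker × {b : B // b ^ 3 = 1} := fun a =>
    (⟨a.1 * (s (g a)).1⁻¹, by rw [MonoidHom.mem_ker, map_mul, map_inv, hg, mul_inv_cancel]⟩, g a)
  refine Nat.card_le_card_of_injective φ ?_
  intro a a' h
  have h2 : g a = g a' := congrArg Prod.snd h
  have h1 : a.1 * (s (g a)).1⁻¹ = a'.1 * (s (g a')).1⁻¹ :=
    congrArg Subtype.val (congrArg Prod.fst h)
  rw [h2] at h1
  exact Subtype.ext (mul_right_cancel h1)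

theorem card_ker {A B : Type*} [CommGroup A] [CommGroup B] [Finite A] [Finite B] (f : A →* B) :
    Nat.card f.ker * Nat.card B = f.range.index * Nat.card A := by
  have h1 : Nat.card f.ker * Nat.card f.range = Nat.card A := by
    rw [← Subgroup.index_ker]
    exact f.ker.card_mul_index
  have h2 : Nat.card f.range * f.range.index = Nat.card B := f.range.card_mul_index
  rw [← h1, ← h2]
  ring

/-- M: assembly -/
theorem t_Tof : S_Tof := by
  intro hCNF hREG hRHO hN n ε hε
  obtain ⟨C1, hC1, h1⟩ := hCNF n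
  obtain ⟨C2, hC2, h2⟩ := hREG n
  obtain ⟨C3, hC3, h3'⟩ := hRHO n ε hε
  refine ⟨((n : ℝ) + 1) * (C1 * C1 * C2 * C3), by positivity, ?_⟩
  intro E K _ _ _ _ _ hn
  have hfin : Module.Finite E K := Module.Finite.of_restrictScalars_finite ℚ E K
  have hmul : Module.finrank ℚ E * Module.finrank E K = n := by
    rw [Module.finrank_mul_finrank, hn]
  have hEK : 0 < Module.finrank E K := Module.finrank_pos
  have hQE : 0 < Module.finrank ℚ E := Module.finrank_pos
  have hEn : Module.finrank ℚ E ≤ n := by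
    rw [← hmul]
    exact Nat.le_mul_of_pos_right _ hEK
  have hKn : Module.finrank E K ≤ n := by
    rw [← hmul]
    exact Nat.le_mul_of_pos_left _ hQE
  obtain ⟨N, -, hidx⟩ := hN E K
  -- group theory
  have hcE : Nat.card (ClassGroup (𝓞 E)) = classNumber E := by
    rw [Nat.card_eq_fintype_card]
    rfl
  have hcK : Nat.card (ClassGroup (𝓞 K)) = classNumber K := by
    rw [Nat.card_eq_fintype_card]
    rfl
  have g1 : h3 K ≤ Nat.card N.ker * h3 E := card_three N
  have g2 : Nat.card N.ker * classNumber E ≤ n * classNumber K := by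
    rw [← hcE, ← hcK, card_ker N]
    exact Nat.mul_le_mul_right _ (hidx.trans hKn)
  have hE0 : (0 : ℝ) < classNumber E := by exact_mod_cast classNumber_pos E
  -- analysis
  obtain ⟨a1, -⟩ := h1 K hn.le
  obtain ⟨-, a2⟩ := h1 E hEn
  have a3 := h2 E K hn
  have a4 := h3' E K hn
  have hRK : 0 < Units.regulator K := Units.regulator_pos K
  have hRE : 0 < Units.regulator E := Units.regulator_pos E
  have hDE : 0 < |(discr E : ℝ)| := abs_pos.mpr (by exact_mod_cast discr_ne_zero E)
  have hDK : 0 < |(discr K : ℝ)| := abs_pos.mpr (by exact_mod_cast discr_ne_zero K)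
  have hsE : 0 < √|(discr E : ℝ)| := Real.sqrt_pos.mpr hDE
  have hsK : 0 < √|(discr K : ℝ)| := Real.sqrt_pos.mpr hDK
  set P : ℝ := |(discr K : ℝ)| ^ ε with hP
  have hP0 : 0 < P := Real.rpow_pos_of_pos hDK _
  have key : (classNumber K : ℝ) ≤ C1 * C1 * C2 * C3 * P *
      (√|(discr K : ℝ)| / √|(discr E : ℝ)|) * classNumber E := by
    have b1 : (classNumber K : ℝ) * Units.regulator K ≤
        C1 * (C3 * P * dedekindZeta_residue E * √|(discr K : ℝ)|) :=
      a1.trans (mul_le_mul_of_nonneg_left (mul_le_mul_of_nonneg_right a4 hsK.le) hC1.le)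
    have b2 : dedekindZeta_residue E ≤
        C1 * ((classNumber E : ℝ) * (C2 * Units.regulator K)) / √|(discr E : ℝ)| := by
      rw [le_div_iff₀ hsE]
      exact a2.trans (mul_le_mul_of_nonneg_left (mul_le_mul_of_nonneg_left a3 hE0.le) hC1.le)
    have b3 : (classNumber K : ℝ) * Units.regulator K ≤
        (C1 * C1 * C2 * C3 * P * (√|(discr K : ℝ)| / √|(discr E : ℝ)|) * classNumber E) *
          Units.regulator K := by
      refine b1.trans ?_
      calc C1 * (C3 * P * dedekindZeta_residue E * √|(discr K : ℝ)|)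
          = (C1 * C3 * P * √|(discr K : ℝ)|) * dedekindZeta_residue E := by ring
        _ ≤ (C1 * C3 * P * √|(discr K : ℝ)|) *
            (C1 * ((classNumber E : ℝ) * (C2 * Units.regulator K)) / √|(discr E : ℝ)|) :=
            mul_le_mul_of_nonneg_left b2 (by positivity)
        _ = _ := by ring
    exact le_of_mul_le_mul_right b3 hRK
  have hker : (Nat.card N.ker : ℝ) ≤ ((n : ℝ) + 1) * (C1 * C1 * C2 * C3 * P *
      (√|(discr K : ℝ)| / √|(discr E : ℝ)|)) := by
    have c1 : (Nat.card N.ker : ℝ) * classNumber E ≤ n * classNumber K := by exact_mod_cast g2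
    have c2 : (Nat.card N.ker : ℝ) * classNumber E ≤ (((n : ℝ) + 1) * (C1 * C1 * C2 * C3 * P *
      (√|(discr K : ℝ)| / √|(discr E : ℝ)|))) * classNumber E := by
      calc (Nat.card N.ker : ℝ) * classNumber E ≤ n * classNumber K := c1
        _ ≤ ((n : ℝ) + 1) * classNumber K := by
            apply mul_le_mul_of_nonneg_right _ (Nat.cast_nonneg _)
            linarith
        _ ≤ ((n : ℝ) + 1) * (C1 * C1 * C2 * C3 * P *
            (√|(discr K : ℝ)| / √|(discr E : ℝ)|) * classNumber E) :=
            mul_le_mul_of_nonneg_left key (by positivity)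
        _ = _ := by ring
    exact le_of_mul_le_mul_right c2 hE0
  have hsq : √(|(discr K : ℝ)| / |(discr E : ℝ)|) = √|(discr K : ℝ)| / √|(discr E : ℝ)| :=
    Real.sqrt_div (abs_nonneg _) _
  rw [hsq]
  calc (h3 K : ℝ) ≤ (Nat.card N.ker : ℝ) * h3 E := by exact_mod_cast g1
    _ ≤ (((n : ℝ) + 1) * (C1 * C1 * C2 * C3 * P *
      (√|(discr K : ℝ)| / √|(discr E : ℝ)|))) * h3 E :=
        mul_le_mul_of_nonneg_right hker (Nat.cast_nonneg _)
    _ = _ := by ring

end Pool.Agent.K1H1.TW
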